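import Mathlib

/-!
# Median eigenvalues and the average degree: the bound `√(d - 1)` fails

The disjoint union of the `4 × 4` rook graph and of the Petersen graph has `26` vertices and average degree `63 / 13`, and `-2` is
an eigenvalue of multiplicity `13`. Its lower median eigenvalue `λ_14` is `-2`, and `2 > √(63 / 13 - 1)`.
-/

set_option autoImplicit false

namespace Pool.Agent.Results.MP_17c227_co.Disproof

open Classical in
/-- `λ_k`, the `k`-th largest eigenvalue (with multiplicity) of the adjacency matrix of `G`, for `1 ≤ k ≤ n`. -/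
noncomputable def eig {n : ℕ} (G : SimpleGraph (Fin n)) (k : ℕ) : ℝ :=
  if h : 1 ≤ k ∧ k ≤ n then
    (G.isHermitian_adjMatrix ℝ).eigenvalues₀ ⟨k - 1, by rw [Fintype.card_fin]; omega⟩
  else 0

/-- The average degree `2 |E(G)| / n`. -/
noncomputable def avgDegree {n : ℕ} (G : SimpleGraph (Fin n)) : ℝ := 2 * (G.edgeSet.ncard : ℝ) / n

/-- The assertion of the problem for the real number `d`: both median eigenvalues `λ_h`, `h = ⌊(n + 1) / 2⌋`, and `λ_l`,
`l = ⌈(n + 1) / 2⌉`, of every graph of average degree at most `d` have absolute value at most `√(d - 1)`. -/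
def Assertion (d : ℝ) : Prop :=
  ∀ (n : ℕ), 1 ≤ n → ∀ G : SimpleGraph (Fin n), avgDegree G ≤ d →
    |eig G ((n + 1) / 2)| ≤ √(d - 1) ∧ |eig G ((n + 2) / 2)| ≤ √(d - 1)

/-- the Petersen graph on `0, …, 9` -/
def pet (a b : ℕ) : Bool :=
  if a < 5 ∧ b < 5 then (a + 1) % 5 = b ∨ (b + 1) % 5 = a
  else if 5 ≤ a ∧ 5 ≤ b then (a - 5 + 2) % 5 = b - 5 ∨ (b - 5 + 2) % 5 = a - 5
  else a + 5 = b ∨ b + 5 = a

/-- the adjacency relation: the rook graph on `0, …, 15` and the Petersen graph on `16, …, 25` -/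
def adj (i j : ℕ) : Bool :=
  if i < 16 ∧ j < 16 then i ≠ j ∧ (i / 4 = j / 4 ∨ i % 4 = j % 4)
  else if 16 ≤ i ∧ 16 ≤ j then pet (i - 16) (j - 16)
  else false

/-- the graph -/
def Gr : SimpleGraph (Fin 26) where
  Adj i j := adj i j = true
  symm := ⟨by decide +kernel⟩
  loopless := ⟨by decide +kernel⟩

/-- the columns -/
def piv : Fin 13 → Fin 26 := ![0, 1, 2, 3, 4, 8, 12, 16, 17, 18, 19, 20, 21]

/-- `A + 2` -/
def M (i j : Fin 26) : ℤ := (if adj i j then 1 else 0) + (if i = j then 2 else 0)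

/-- the second factor -/
def C : Fin 13 → Fin 26 → ℤ := ![
  ![1, 0, 0, 0, 0, -1, -1, -1, 0, -1, -1, -1, 0, -1, -1, -1, 0, 0, 0, 0, 0, 0, 0, 0, 0, 0],
  ![0, 1, 0, 0, 0, 1, 0, 0, 0, 1, 0, 0, 0, 1, 0, 0, 0, 0, 0, 0, 0, 0, 0, 0, 0, 0],
  ![0, 0, 1, 0, 0, 0, 1, 0, 0, 0, 1, 0, 0, 0, 1, 0, 0, 0, 0, 0, 0, 0, 0, 0, 0, 0],
  ![0, 0, 0, 1, 0, 0, 0, 1, 0, 0, 0, 1, 0, 0, 0, 1, 0, 0, 0, 0, 0, 0, 0, 0, 0, 0],
  ![0, 0, 0, 0, 1, 1, 1, 1, 0, 0, 0, 0, 0, 0, 0, 0, 0, 0, 0, 0, 0, 0, 0, 0, 0, 0],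
  ![0, 0, 0, 0, 0, 0, 0, 0, 1, 1, 1, 1, 0, 0, 0, 0, 0, 0, 0, 0, 0, 0, 0, 0, 0, 0],
  ![0, 0, 0, 0, 0, 0, 0, 0, 0, 0, 0, 0, 1, 1, 1, 1, 0, 0, 0, 0, 0, 0, 0, 0, 0, 0],
  ![0, 0, 0, 0, 0, 0, 0, 0, 0, 0, 0, 0, 0, 0, 0, 0, 1, 0, 0, 0, 0, 0, -2, -1, -1, -2],
  ![0, 0, 0, 0, 0, 0, 0, 0, 0, 0, 0, 0, 0, 0, 0, 0, 0, 1, 0, 0, 0, 0, 2, 0, 1, 1],
  ![0, 0, 0, 0, 0, 0, 0, 0, 0, 0, 0, 0, 0, 0, 0, 0, 0, 0, 1, 0, 0, 0, -1, 1, -1, 0],
  ![0, 0, 0, 0, 0, 0, 0, 0, 0, 0, 0, 0, 0, 0, 0, 0, 0, 0, 0, 1, 0, 0, 0, -1, 1, -1],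
  ![0, 0, 0, 0, 0, 0, 0, 0, 0, 0, 0, 0, 0, 0, 0, 0, 0, 0, 0, 0, 1, 0, 1, 1, 0, 2],
  ![0, 0, 0, 0, 0, 0, 0, 0, 0, 0, 0, 0, 0, 0, 0, 0, 0, 0, 0, 0, 0, 1, 1, 1, 1, 1]]

theorem fact (i j : Fin 26) : M i j = ∑ k : Fin 13, M i (piv k) * C k j := by
  revert i j
  decide +kernel

theorem card_edges : Gr.edgeSet.ncard = 63 := by
  let _ : DecidableRel Gr.Adj := fun i j => inferInstanceAs (Decidable (adj i j = true))
  have h1 : ∑ v, Gr.degree v = 126 := by decide +kernel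
  have h2 := Gr.sum_degrees_eq_twice_card_edges
  rw [h1] at h2
  rw [← SimpleGraph.coe_edgeFinset, Set.ncard_coe_finset]
  omega

theorem avg : avgDegree Gr = 63 / 13 := by
  rw [avgDegree, card_edges]
  norm_num

/-- `A + 2` over the real numbers -/
noncomputable def MR : Matrix (Fin 26) (Fin 26) ℝ := Matrix.of fun i j => (M i j : ℝ)

theorem MR_rank : MR.rank ≤ 13 := by
  have h : MR = (Matrix.of fun (i : Fin 26) (k : Fin 13) => (M i (piv k) : ℝ)) *
      (Matrix.of fun (k : Fin 13) (j : Fin 26) => (C k j : ℝ)) := by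
    ext i j
    rw [Matrix.mul_apply]
    simp only [MR, Matrix.of_apply]
    rw [fact i j]
    push_cast
    rfl
  rw [h]
  refine (Matrix.rank_mul_le_left _ _).trans ?_
  refine (Matrix.rank_le_card_width _).trans ?_
  simp

open Classical in
theorem MR_eq : MR = Gr.adjMatrix ℝ + (2 : ℝ) • (1 : Matrix (Fin 26) (Fin 26) ℝ) := by
  ext i j
  simp only [MR, Matrix.of_apply, M, Matrix.add_apply, SimpleGraph.adjMatrix_apply, Matrix.smul_apply, Matrix.one_apply]
  push_cast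
  have h1 : (if adj i j = true then (1 : ℝ) else 0) = if Gr.Adj i j then 1 else 0 := if_congr Iff.rfl rfl rfl
  rw [h1]
  congr 1
  by_cases h : i = j <;> simp [h]

open Classical in
theorem eig_le : eig Gr 14 ≤ -2 := by
  by_contra hcon
  push Not at hcon
  rw [eig, dif_pos (by norm_num)] at hcon
  set hA := Gr.isHermitian_adjMatrix ℝ with hAdef
  have hcard : Fintype.card (Fin 26) = 26 := Fintype.card_fin 26
  let e : Fin (Fintype.card (Fin 26)) ≃ Fin 26 := Fintype.equivOfCardEq (Fintype.card_fin _)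
  let idx : Fin 14 → Fin (Fintype.card (Fin 26)) := fun k => ⟨k, by rw [hcard]; omega⟩
  have hidx : Function.Injective idx := fun a b h => by
    have := congrArg Fin.val h
    exact Fin.ext this
  let σ : Fin 14 → Fin 26 := fun k => e (idx k)
  have hσ : Function.Injective σ := e.injective.comp hidx
  have hev : ∀ k, -2 < hA.eigenvalues (σ k) := by
    intro k
    have h1 : hA.eigenvalues (σ k) = hA.eigenvalues₀ (idx k) := by
      simp only [Matrix.IsHermitian.eigenvalues, σ, e]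
      rw [Equiv.symm_apply_apply]
    rw [h1]
    refine lt_of_lt_of_le hcon (hA.eigenvalues₀_antitone ?_)
    show (k : ℕ) ≤ 14 - 1
    omega
  let b := hA.eigenvectorBasis
  have hmul : ∀ k, MR.mulVec (b (σ k) : Fin 26 → ℝ) = (hA.eigenvalues (σ k) + 2) • (b (σ k) : Fin 26 → ℝ) := by
    intro k
    rw [MR_eq, Matrix.add_mulVec, hA.mulVec_eigenvectorBasis, Matrix.smul_mulVec, Matrix.one_mulVec, add_smul]
  have hli0 : LinearIndependent ℝ (fun k : Fin 14 => (WithLp.ofLp (b (σ k)) : Fin 26 → ℝ)) := by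
    have h1 : LinearIndependent ℝ (fun k : Fin 14 => b (σ k)) :=
      (b.orthonormal.comp σ hσ).linearIndependent
    exact h1.map' (WithLp.linearEquiv 2 ℝ (Fin 26 → ℝ)).toLinearMap (LinearEquiv.ker _)
  have hli : LinearIndependent ℝ (fun k : Fin 14 => MR.mulVecLin (b (σ k) : Fin 26 → ℝ)) := by
    have h2 : (fun k : Fin 14 => MR.mulVecLin (b (σ k) : Fin 26 → ℝ)) =
        (fun k : Fin 14 => Units.mk0 (hA.eigenvalues (σ k) + 2) (by have := hev k; linarith)) •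
          (fun k : Fin 14 => (WithLp.ofLp (b (σ k)) : Fin 26 → ℝ)) := by
      funext k
      rw [Matrix.mulVecLin_apply, hmul k]
      rfl
    rw [h2]
    exact hli0.units_smul _
  have hli' : LinearIndependent ℝ (fun k : Fin 14 =>
      (⟨MR.mulVecLin (b (σ k) : Fin 26 → ℝ), LinearMap.mem_range_self _ _⟩ : LinearMap.range MR.mulVecLin)) := by
    refine LinearIndependent.of_comp (Submodule.subtype _) ?_
    exact hli
  have h14 := hli'.fintype_card_le_finrank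
  rw [Fintype.card_fin] at h14
  have h13 := MR_rank
  rw [Matrix.rank] at h13
  omega

/-- For every real number `d` with `63 / 13 ≤ d < 5` there is a graph of average degree at most `d` one of whose median
eigenvalues has an absolute value greater than `√(d - 1)`. In particular the answer to the question is negative. -/
theorem result : (∀ d : ℝ, 63 / 13 ≤ d → d < 5 → ¬ Assertion d) ∧ ¬ ∀ d : ℝ, 2 ≤ d → Assertion d := by
  have main : ∀ d : ℝ, 63 / 13 ≤ d → d < 5 → ¬ Assertion d := by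
    intro d h1 h2 h
    have h3 := (h 26 (by norm_num) Gr (by rw [avg]; exact h1)).2
    have h4 : eig Gr ((26 + 2) / 2) ≤ -2 := eig_le
    have h5 : (2 : ℝ) ≤ |eig Gr ((26 + 2) / 2)| := by
      rw [abs_of_nonpos (by linarith)]
      linarith
    have h6 : √(d - 1) < 2 := by
      rw [Real.sqrt_lt' (by norm_num)]
      linarith
    linarith
  exact ⟨main, fun h => main (63 / 13) le_rfl (by norm_num) (h _ (by norm_num))⟩

end Pool.Agent.Results.MP_17c227_co.Disproof
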